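import Mathlib

namespace Pool.Agent.MP_38c1f8_pr

/-- The square grid `ℤ²` with its standard graph structure. -/
def squareGrid : SimpleGraph (ℤ × ℤ) :=
  SimpleGraph.fromRel fun x y => |x.1 - y.1| + |x.2 - y.2| = 1

/-- Quasi-isometry of two graphs with their graph metrics. -/
def IsQuasiIsometric {V W : Type} (G : SimpleGraph V) (H : SimpleGraph W) : Prop :=
  ∃ (f : V → W) (A B : ℝ), 1 ≤ A ∧ 0 ≤ B ∧
    (∀ x y : V, (G.dist x y : ℝ) / A - B ≤ (H.dist (f x) (f y) : ℝ) ∧
      (H.dist (f x) (f y) : ℝ) ≤ A * (G.dist x y : ℝ) + B) ∧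
    ∀ w : W, ∃ x : V, (H.dist w (f x) : ℝ) ≤ B

open Classical in
/-- The 2-neighbour contamination map `F` (`true` means infected). -/
noncomputable def contaminate {V : Type} (G : SimpleGraph V) (c : V → Bool) : V → Bool :=
  fun v => if c v = true ∨ 2 ≤ {w : V | G.Adj w v ∧ c w = true}.encard then true else false

/-- The invasion set `I`. -/
def invasionSet {V : Type} (G : SimpleGraph V) : Set (V → Bool) :=
  {c | ∀ v : V, ∃ n : ℕ, (contaminate G)^[n] c v = true}

/-- A fortress: a finite nonempty vertex set each of whose vertices has at most one neighbour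
outside it. -/
def IsFortress {V : Type} (G : SimpleGraph V) (S : Set V) : Prop :=
  S.Finite ∧ S.Nonempty ∧ ∀ v ∈ S, (G.neighborSet v \ S).encard ≤ 1

end Pool.Agent.MP_38c1f8_pr
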