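import Pool.Agent.MP_38c1f8_pr.Defs

namespace Pool.Agent.MP_38c1f8_pr

open SimpleGraph

abbrev Cell := ℤ × ℤ
abbrev Vx := Cell × Fin 4

/-- first out-neighbour -/
def out1 : Vx → Vx
  | (s, 0) => (s, 1)
  | (s, 1) => (s, 2)
  | (s, 2) => (s, 3)
  | (s, 3) => ((s.1 + 1, s.2), 0)

/-- second out-neighbour -/
def out2 : Vx → Vx
  | (s, 0) => (s, 2)
  | (s, 1) => (s, 3)
  | (s, 2) => ((s.1 + 1, s.2 - 1), 1)
  | (s, 3) => ((s.1, s.2 + 1), 0)

def in1 : Vx → Vx
  | (s, 0) => ((s.1 - 1, s.2), 3)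
  | (s, 1) => (s, 0)
  | (s, 2) => (s, 1)
  | (s, 3) => (s, 2)

def in2 : Vx → Vx
  | (s, 0) => ((s.1, s.2 - 1), 3)
  | (s, 1) => ((s.1 - 1, s.2 + 1), 2)
  | (s, 2) => (s, 0)
  | (s, 3) => (s, 1)

def ht (x : Vx) : ℤ := 4 * (2 * x.1.1 + x.1.2) + (x.2 : ℕ)

lemma ht_out1 (x : Vx) : ht x < ht (out1 x) := by
  obtain ⟨⟨i, j⟩, t⟩ := x
  fin_cases t <;> simp [ht, out1] <;> omega

lemma ht_out2 (x : Vx) : ht x < ht (out2 x) := by
  obtain ⟨⟨i, j⟩, t⟩ := x
  fin_cases t <;> simp [ht, out2] <;> omega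

lemma ht_in1 (x : Vx) : ht (in1 x) < ht x := by
  obtain ⟨⟨i, j⟩, t⟩ := x
  fin_cases t <;> simp [ht, in1] <;> omega

lemma ht_in2 (x : Vx) : ht (in2 x) < ht x := by
  obtain ⟨⟨i, j⟩, t⟩ := x
  fin_cases t <;> simp [ht, in2] <;> omega

lemma out1_ne_out2 (x : Vx) : out1 x ≠ out2 x := by
  obtain ⟨⟨i, j⟩, t⟩ := x
  fin_cases t <;> simp [out1, out2]

lemma in1_ne_in2 (x : Vx) : in1 x ≠ in2 x := by
  obtain ⟨⟨i, j⟩, t⟩ := x
  fin_cases t <;> simp [in1, in2]

lemma out1_in1 (x : Vx) : out1 (in1 x) = x := by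
  obtain ⟨⟨i, j⟩, t⟩ := x
  fin_cases t <;> simp [in1, out1]

lemma out2_in2 (x : Vx) : out2 (in2 x) = x := by
  obtain ⟨⟨i, j⟩, t⟩ := x
  fin_cases t <;> simp [in2, out2]

lemma in1_out1 (x : Vx) : in1 (out1 x) = x := by
  obtain ⟨⟨i, j⟩, t⟩ := x
  fin_cases t <;> simp [in1, out1]

lemma in2_out2 (x : Vx) : in2 (out2 x) = x := by
  obtain ⟨⟨i, j⟩, t⟩ := x
  fin_cases t <;> simp [in2, out2]

/-- the counterexample graph -/
def G : SimpleGraph Vx := SimpleGraph.fromRel fun x y => y = out1 x ∨ y = out2 x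

lemma G_adj (x y : Vx) : G.Adj x y ↔ y = out1 x ∨ y = out2 x ∨ y = in1 x ∨ y = in2 x := by
  rw [G, fromRel_adj]
  constructor
  · rintro ⟨-, (h | h) | (h | h)⟩
    · exact Or.inl h
    · exact Or.inr (Or.inl h)
    · exact Or.inr (Or.inr (Or.inl (by rw [h, in1_out1])))
    · exact Or.inr (Or.inr (Or.inr (by rw [h, in2_out2])))
  · rintro (h | h | h | h)
    · refine ⟨?_, Or.inl (Or.inl h)⟩
      intro e; have := ht_out1 x; rw [← h, ← e] at this; exact lt_irrefl _ this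
    · refine ⟨?_, Or.inl (Or.inr h)⟩
      intro e; have := ht_out2 x; rw [← h, ← e] at this; exact lt_irrefl _ this
    · refine ⟨?_, Or.inr (Or.inl (by rw [h, out1_in1]))⟩
      intro e; have := ht_in1 x; rw [← h, ← e] at this; exact lt_irrefl _ this
    · refine ⟨?_, Or.inr (Or.inr (by rw [h, out2_in2]))⟩
      intro e; have := ht_in2 x; rw [← h, ← e] at this; exact lt_irrefl _ this

lemma G_neighborSet (x : Vx) : G.neighborSet x = {out1 x, out2 x, in1 x, in2 x} := by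
  ext y; simp [G_adj]

lemma G_regular (x : Vx) : (G.neighborSet x).encard = 4 := by
  rw [G_neighborSet]
  have h1 := ht_out1 x
  have h2 := ht_out2 x
  have h3 := ht_in1 x
  have h4 := ht_in2 x
  have a : out1 x ≠ in1 x := fun e => by rw [e] at h1; omega
  have b : out1 x ≠ in2 x := fun e => by rw [e] at h1; omega
  have c : out2 x ≠ in1 x := fun e => by rw [e] at h2; omega
  have d : out2 x ≠ in2 x := fun e => by rw [e] at h2; omega
  rw [Set.encard_insert_of_notMem (by simp [a, b, out1_ne_out2 x]),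
    Set.encard_insert_of_notMem (by simp [c, d]), Set.encard_pair (in1_ne_in2 x)]
  rfl

lemma G_no_fortress (S : Set Vx) : ¬ IsFortress G S := by
  rintro ⟨hfin, hne, h⟩
  obtain ⟨v, hv, hmax⟩ := Set.exists_max_image S ht hfin hne
  have h1 : out1 v ∉ S := fun e => by have := hmax _ e; have := ht_out1 v; omega
  have h2 : out2 v ∉ S := fun e => by have := hmax _ e; have := ht_out2 v; omega
  have hsub : ({out1 v, out2 v} : Set Vx) ⊆ G.neighborSet v \ S := by
    intro y hy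
    rcases hy with rfl | rfl
    · exact ⟨by simp [G_adj], h1⟩
    · exact ⟨by simp [G_adj], h2⟩
  have := (Set.encard_le_encard hsub).trans (h v hv)
  rw [Set.encard_pair (out1_ne_out2 v)] at this
  exact absurd this (by decide)

/-- transfer of walks along a map which sends edges to short walks -/
lemma walk_transfer {V W : Type} {G : SimpleGraph V} {H : SimpleGraph W} (φ : V → W) (K : ℕ)
    (h : ∀ x y, G.Adj x y → ∃ q : H.Walk (φ x) (φ y), q.length ≤ K) {x y : V} (p : G.Walk x y) :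
    ∃ q : H.Walk (φ x) (φ y), q.length ≤ K * p.length := by
  induction p with
  | nil => exact ⟨Walk.nil, by simp⟩
  | cons ha p ih =>
    obtain ⟨q1, hq1⟩ := h _ _ ha
    obtain ⟨q2, hq2⟩ := ih
    refine ⟨q1.append q2, ?_⟩
    rw [Walk.length_append, Walk.length_cons]
    nlinarith

lemma grid_adj (x y : Cell) : squareGrid.Adj x y ↔
    y = (x.1 + 1, x.2) ∨ y = (x.1 - 1, x.2) ∨ y = (x.1, x.2 + 1) ∨ y = (x.1, x.2 - 1) := by
  obtain ⟨a, b⟩ := x
  obtain ⟨c, d⟩ := y
  simp only [squareGrid, fromRel_adj, ne_eq, Prod.mk.injEq]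
  constructor
  · rintro ⟨-, h | h⟩ <;>
    · rcases abs_cases (a - c) with h1 | h1 <;> rcases abs_cases (b - d) with h2 | h2 <;>
      rcases abs_cases (c - a) with h3 | h3 <;> rcases abs_cases (d - b) with h4 | h4 <;> omega
  · rintro (⟨rfl, rfl⟩ | ⟨rfl, rfl⟩ | ⟨rfl, rfl⟩ | ⟨rfl, rfl⟩) <;>
      exact ⟨by omega, by simp⟩

lemma grid_connected : squareGrid.Connected := by
  have : squareGrid = SimpleGraph.boxProd (SimpleGraph.hasse ℤ) (SimpleGraph.hasse ℤ) := by
    ext ⟨a, b⟩ ⟨c, d⟩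
    simp only [grid_adj, boxProd_adj, hasse_adj, Order.covBy_iff_add_one_eq, Prod.mk.injEq]
    omega
  rw [this]
  exact Connected.boxProd ⟨hasse_preconnected_of_succ ℤ⟩ ⟨hasse_preconnected_of_succ ℤ⟩

lemma fst_short (x y : Vx) (h : G.Adj x y) : ∃ q : squareGrid.Walk x.1 y.1, q.length ≤ 2 := by
  have one : ∀ a b : Cell, squareGrid.Adj a b → ∃ q : squareGrid.Walk a b, q.length ≤ 2 :=
    fun a b hab => ⟨hab.toWalk, by simp⟩
  have two : ∀ a b c : Cell, squareGrid.Adj a b → squareGrid.Adj b c →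
      ∃ q : squareGrid.Walk a c, q.length ≤ 2 :=
    fun a b c hab hbc => ⟨Walk.cons hab hbc.toWalk, by simp⟩
  have zero : ∀ a : Cell, ∃ q : squareGrid.Walk a a, q.length ≤ 2 :=
    fun a => ⟨Walk.nil, by simp⟩
  obtain ⟨⟨i, j⟩, t⟩ := x
  rw [G_adj] at h
  fin_cases t <;> rcases h with rfl | rfl | rfl | rfl
  · exact zero _
  · exact zero _
  · exact one _ _ (by simp [grid_adj, in1])
  · exact one _ _ (by simp [grid_adj, in2])
  · exact zero _
  · exact zero _
  · exact zero _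
  · exact two _ (i - 1, j) _ (by simp [grid_adj]) (by simp [grid_adj, in2])
  · exact zero _
  · exact two _ (i + 1, j) _ (by simp [grid_adj]) (by simp [grid_adj, out2])
  · exact zero _
  · exact zero _
  · exact one _ _ (by simp [grid_adj, out1])
  · exact one _ _ (by simp [grid_adj, out2])
  · exact zero _
  · exact zero _

lemma adj01 (s : Cell) : G.Adj (s, 0) (s, 1) := by simp [G_adj, out1]
lemma adj02 (s : Cell) : G.Adj (s, 0) (s, 2) := by simp [G_adj, out2]
lemma adj13 (s : Cell) : G.Adj (s, 1) (s, 3) := by simp [G_adj, out2]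
lemma adj3E (s : Cell) : G.Adj (s, 3) ((s.1 + 1, s.2), 0) := by simp [G_adj, out1]
lemma adj3N (s : Cell) : G.Adj (s, 3) ((s.1, s.2 + 1), 0) := by simp [G_adj, out2]

lemma base_short (s s' : Cell) (h : squareGrid.Adj s s') :
    ∃ q : G.Walk (s, 0) (s', 0), q.length ≤ 3 := by
  have E : ∀ s : Cell, ∃ q : G.Walk (s, 0) ((s.1 + 1, s.2), 0), q.length ≤ 3 := fun s =>
    ⟨Walk.cons (adj01 s) (Walk.cons (adj13 s) (adj3E s).toWalk), by simp⟩
  have N : ∀ s : Cell, ∃ q : G.Walk (s, 0) ((s.1, s.2 + 1), 0), q.length ≤ 3 := fun s =>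
    ⟨Walk.cons (adj01 s) (Walk.cons (adj13 s) (adj3N s).toWalk), by simp⟩
  obtain ⟨i, j⟩ := s
  rw [grid_adj] at h
  rcases h with rfl | rfl | rfl | rfl
  · exact E _
  · obtain ⟨q, hq⟩ := E (i - 1, j)
    exact ⟨q.reverse.copy (by simp) (by simp), by simpa using hq⟩
  · exact N _
  · obtain ⟨q, hq⟩ := N (i, j - 1)
    exact ⟨q.reverse.copy (by simp) (by simp), by simpa using hq⟩

lemma to_base (x : Vx) : ∃ q : G.Walk (x.1, 0) x, q.length ≤ 2 := by
  obtain ⟨s, t⟩ := x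
  fin_cases t
  · exact ⟨Walk.nil, by simp⟩
  · exact ⟨(adj01 s).toWalk, by simp⟩
  · exact ⟨(adj02 s).toWalk, by simp⟩
  · exact ⟨Walk.cons (adj01 s) (adj13 s).toWalk, by simp⟩

lemma walk_of_grid (x y : Vx) :
    ∃ q : G.Walk x y, q.length ≤ 3 * squareGrid.dist x.1 y.1 + 4 := by
  obtain ⟨p, hp⟩ := grid_connected.exists_walk_length_eq_dist x.1 y.1
  obtain ⟨q, hq⟩ := walk_transfer (fun s : Cell => ((s, 0) : Vx)) 3 base_short p
  obtain ⟨q1, h1⟩ := to_base x
  obtain ⟨q2, h2⟩ := to_base y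
  refine ⟨q1.reverse.append (q.append q2), ?_⟩
  simp only [Walk.length_append, Walk.length_reverse]
  omega

lemma G_connected : G.Connected :=
  ⟨fun x y => (walk_of_grid x y).elim fun q _ => ⟨q⟩⟩

lemma G_qi : IsQuasiIsometric G squareGrid := by
  refine ⟨Prod.fst, 3, 2, by norm_num, by norm_num, fun x y => ⟨?_, ?_⟩, fun w => ⟨(w, 0), ?_⟩⟩
  · obtain ⟨q, hq⟩ := walk_of_grid x y
    have h : G.dist x y ≤ 3 * squareGrid.dist x.1 y.1 + 4 := (dist_le q).trans hq
    have h' : (G.dist x y : ℝ) ≤ 3 * squareGrid.dist x.1 y.1 + 4 := by exact_mod_cast h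
    linarith
  · obtain ⟨p, hp⟩ := G_connected.exists_walk_length_eq_dist x y
    obtain ⟨q, hq⟩ := walk_transfer (Prod.fst : Vx → Cell) 2 fst_short p
    have h : squareGrid.dist x.1 y.1 ≤ 2 * G.dist x y := by rw [← hp]; exact (dist_le q).trans hq
    have h' : (squareGrid.dist x.1 y.1 : ℝ) ≤ 2 * G.dist x y := by exact_mod_cast h
    have : (0 : ℝ) ≤ G.dist x y := Nat.cast_nonneg _
    linarith
  · simp

/-- a healthy set in which every vertex has at most one outside neighbour stays healthy -/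
lemma stays_healthy {V : Type} (H : SimpleGraph V) (S : Set V)
    (hS : ∀ v ∈ S, (H.neighborSet v \ S).encard ≤ 1) (c : V → Bool) (hc : ∀ v ∈ S, c v = false)
    (n : ℕ) : ∀ v ∈ S, (contaminate H)^[n] c v = false := by
  induction n with
  | zero => exact hc
  | succ n ih =>
    intro v hv
    rw [Function.iterate_succ_apply', contaminate, if_neg]
    rintro (h | h)
    · rw [ih v hv] at h; exact absurd h (by decide)
    · have hsub : {w : V | H.Adj w v ∧ (contaminate H)^[n] c w = true} ⊆ H.neighborSet v \ S := by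
        rintro w ⟨h1, h2⟩
        refine ⟨h1.symm, fun hw => ?_⟩
        rw [ih w hw] at h2; exact absurd h2 (by decide)
      have := h.trans ((Set.encard_le_encard hsub).trans (hS v hv))
      exact absurd this (by decide)

/-- a set of cells closed in both directions gives a stable set of vertices -/
lemma cells_stable (C : Set Cell)
    (hup : ∀ s ∈ C, (s.1, s.2 + 1) ∈ C ∨ (s.1 + 1, s.2) ∈ C)
    (hdown : ∀ s ∈ C, (s.1, s.2 - 1) ∈ C ∨ (s.1 - 1, s.2) ∈ C) :
    ∀ v ∈ {x : Vx | x.1 ∈ C}, (G.neighborSet v \ {x : Vx | x.1 ∈ C}).encard ≤ 1 := by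
  rintro ⟨s, t⟩ hs
  have hs : s ∈ C := hs
  have key : ∀ w : Vx, (G.neighborSet (s, t) \ {x : Vx | x.1 ∈ C}) ⊆ {w} →
      (G.neighborSet (s, t) \ {x : Vx | x.1 ∈ C}).encard ≤ 1 := fun w h =>
    (Set.encard_le_encard h).trans (by simp)
  fin_cases t
  · rcases hdown s hs with h | h
    · refine key (in1 (s, 0)) ?_
      rintro y ⟨h1, h2⟩
      rw [mem_neighborSet, G_adj] at h1
      rcases h1 with rfl | rfl | rfl | rfl <;> simp_all [out1, out2, in1, in2]
    · refine key (in2 (s, 0)) ?_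
      rintro y ⟨h1, h2⟩
      rw [mem_neighborSet, G_adj] at h1
      rcases h1 with rfl | rfl | rfl | rfl <;> simp_all [out1, out2, in1, in2]
  · refine key (in2 (s, 1)) ?_
    rintro y ⟨h1, h2⟩
    rw [mem_neighborSet, G_adj] at h1
    rcases h1 with rfl | rfl | rfl | rfl <;> simp_all [out1, out2, in1, in2]
  · refine key (out2 (s, 2)) ?_
    rintro y ⟨h1, h2⟩
    rw [mem_neighborSet, G_adj] at h1
    rcases h1 with rfl | rfl | rfl | rfl <;> simp_all [out1, out2, in1, in2]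
  · rcases hup s hs with h | h
    · refine key (out1 (s, 3)) ?_
      rintro y ⟨h1, h2⟩
      rw [mem_neighborSet, G_adj] at h1
      rcases h1 with rfl | rfl | rfl | rfl <;> simp_all [out1, out2, in1, in2]
    · refine key (out2 (s, 3)) ?_
      rintro y ⟨h1, h2⟩
      rw [mem_neighborSet, G_adj] at h1
      rcases h1 with rfl | rfl | rfl | rfl <;> simp_all [out1, out2, in1, in2]

end Pool.Agent.MP_38c1f8_pr
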