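import Pool.Agent.MP_38c1f8_pr.Graph

namespace Pool.Agent.MP_38c1f8_pr

open MeasureTheory ProbabilityTheory
open scoped ENNReal

/-- letters of a dual walk: a diagonal step labelled by a vertex type, or one of two free steps -/
abbrev Letter := Fin 4 ⊕ Bool

def step (a : Cell) : Letter → Cell
  | .inl _ => (a.1 - 1, a.2 + 1)
  | .inr true => (a.1 + 1, a.2)
  | .inr false => (a.1, a.2 - 1)

def fin (a : Cell) : List Letter → Cell
  | [] => a
  | x :: w => fin (step a x) w

def trace (a : Cell) : List Letter → List Cell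
  | [] => [a]
  | x :: w => a :: trace (step a x) w

def need (a : Cell) : List Letter → List Vx
  | [] => []
  | .inl t :: w => (step a (.inl t), t) :: need (step a (.inl t)) w
  | .inr b :: w => need (step a (.inr b)) w

lemma need_cons_subset (a : Cell) (x : Letter) (w : List Letter) :
    need (step a x) w ⊆ need a (x :: w) := by
  rcases x with t | b
  · exact List.subset_cons_self _ _
  · exact List.Subset.refl _

lemma fin_append (a : Cell) (w w' : List Letter) : fin a (w ++ w') = fin (fin a w) w' := by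
  induction w generalizing a with
  | nil => rfl
  | cons x w ih => exact ih _

lemma need_append (a : Cell) (w w' : List Letter) :
    need a (w ++ w') = need a w ++ need (fin a w) w' := by
  induction w generalizing a with
  | nil => rfl
  | cons x w ih =>
    rcases x with t | b
    · simp [need, fin, ih]
    · simp [need, fin, ih]

lemma length_need (a : Cell) (w : List Letter) :
    3 * ((need a w).length : ℤ) = w.length + ((fin a w).2 - a.2) - ((fin a w).1 - a.1) := by
  induction w generalizing a with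
  | nil => simp [need, fin]
  | cons x w ih =>
    rcases x with t | b
    · have := ih (step a (.inl t))
      simp only [need, fin, List.length_cons, step] at this ⊢
      push_cast; omega
    · have := ih (step a (.inr b))
      cases b <;> simp only [need, fin, List.length_cons, step] at this ⊢ <;> push_cast <;> omega

lemma trace_eq (a : Cell) (w : List Letter) : trace a w = a :: (trace a w).tail := by
  cases w <;> rfl

lemma need_sublist (a : Cell) (w : List Letter) :
    ((need a w).map Prod.fst).Sublist (trace a w).tail := by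
  induction w generalizing a with
  | nil => simp [need, trace]
  | cons x w ih =>
    rcases x with t | b
    · simp only [need, trace, List.map_cons, List.tail_cons]
      rw [trace_eq]
      exact (ih _).cons_cons _
    · simp only [need, trace, List.tail_cons]
      exact (ih _).trans (List.tail_sublist _)

lemma need_nodup (a : Cell) (w : List Letter) (h : (trace a w).Nodup) : (need a w).Nodup :=
  (((need_sublist a w).trans (List.tail_sublist _)).nodup h).of_map _

lemma cut (a a' : Cell) (w : List Letter) (h : a ∈ trace a' w) :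
    ∃ w', fin a w' = fin a' w ∧ (trace a w').Sublist (trace a' w) ∧ need a w' ⊆ need a' w := by
  induction w generalizing a' with
  | nil =>
    have : a = a' := by simpa [trace] using h
    subst this
    exact ⟨[], rfl, List.Sublist.refl _, List.Subset.refl _⟩
  | cons x w ih =>
    rcases List.mem_cons.1 h with rfl | h
    · exact ⟨x :: w, rfl, List.Sublist.refl _, List.Subset.refl _⟩
    · obtain ⟨w', h1, h2, h3⟩ := ih _ h
      exact ⟨w', h1, h2.trans (List.sublist_cons_self _ _), List.Subset.trans h3 (need_cons_subset _ _ _)⟩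

lemma self_avoid (a : Cell) (w : List Letter) :
    ∃ w', fin a w' = fin a w ∧ (trace a w').Nodup ∧ need a w' ⊆ need a w := by
  induction w generalizing a with
  | nil => exact ⟨[], rfl, by simp [trace], List.Subset.refl _⟩
  | cons x w ih =>
    obtain ⟨w', h1, h2, h3⟩ := ih (step a x)
    by_cases h : a ∈ trace (step a x) w'
    · obtain ⟨w'', k1, k2, k3⟩ := cut a _ w' h
      exact ⟨w'', k1.trans h1, k2.nodup h2, List.Subset.trans k3 (List.Subset.trans h3 (need_cons_subset _ _ _))⟩
    · refine ⟨x :: w', h1, List.nodup_cons.2 ⟨h, h2⟩, ?_⟩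
      rcases x with t | b
      · exact List.cons_subset_cons _ h3
      · exact h3

/-- there is an oriented path of `N` healthy cells starting at `s` -/
def Alive (inf : Vx → Prop) : ℕ → Cell → Prop
  | 0, _ => True
  | N + 1, s => (∀ t, ¬ inf (s, t)) ∧ (Alive inf N (s.1, s.2 + 1) ∨ Alive inf N (s.1 + 1, s.2))

lemma dual_walk (inf : Vx → Prop) (N : ℕ) (s : Cell) (h : ¬ Alive inf N s) :
    ∃ w, fin (s.1 + 1, s.2 - 1) w = s ∧ ∀ v ∈ need (s.1 + 1, s.2 - 1) w, inf v := by
  induction N generalizing s with
  | zero => exact absurd trivial h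
  | succ N ih =>
    obtain ⟨i, j⟩ := s
    by_cases hc : ∀ t, ¬ inf ((i, j), t)
    · have h1 : ¬ Alive inf N (i, j + 1) := fun e => h ⟨hc, Or.inl e⟩
      have h2 : ¬ Alive inf N (i + 1, j) := fun e => h ⟨hc, Or.inr e⟩
      obtain ⟨w1, a1, b1⟩ := ih _ h1
      obtain ⟨w2, a2, b2⟩ := ih _ h2
      simp only [add_sub_cancel_right] at a1 b1 a2 b2
      refine ⟨.inr true :: (w2 ++ (w1 ++ [.inr false])), ?_, ?_⟩
      · simp [fin, step, fin_append, a1, a2]
      · simp only [need, step, need_append, a2, List.append_nil, List.mem_append]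
        rintro v (hv | hv)
        · exact b2 v hv
        · exact b1 v hv
    · push Not at hc
      obtain ⟨t, ht⟩ := hc
      refine ⟨[.inl t], by simp [fin, step], ?_⟩
      simpa [need, step] using ht

lemma alive_mono (inf : Vx → Prop) (N : ℕ) (s : Cell) (h : Alive inf (N + 1) s) : Alive inf N s := by
  induction N generalizing s with
  | zero => trivial
  | succ N ih => exact ⟨h.1, h.2.imp (ih _) (ih _)⟩

lemma alive_le (inf : Vx → Prop) {M N : ℕ} (hMN : M ≤ N) (s : Cell) (h : Alive inf N s) :
    Alive inf M s := by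
  induction hMN with
  | refl => exact h
  | step _ ih => exact ih (alive_mono _ _ _ h)

lemma alive_succ (inf : Vx → Prop) (s : Cell) (h : ∀ N, Alive inf N s) :
    (∀ N, Alive inf N (s.1, s.2 + 1)) ∨ (∀ N, Alive inf N (s.1 + 1, s.2)) := by
  by_contra hc
  push Not at hc
  obtain ⟨⟨M, hM⟩, ⟨N, hN⟩⟩ := hc
  rcases (h (max M N + 1)).2 with e | e
  · exact hM (alive_le _ (le_max_left _ _) _ e)
  · exact hN (alive_le _ (le_max_right _ _) _ e)

/-- the cell reflection -/
def refl (x : Vx) : Vx := ((-x.1.1, -x.1.2), x.2)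

lemma refl_injective : Function.Injective refl := by
  rintro ⟨⟨a, b⟩, t⟩ ⟨⟨c, d⟩, t'⟩ h
  simpa [refl] using h

lemma not_invaded (c : Vx → Bool) (h1 : ∀ N, Alive (fun v => c v = true) N (0, 0))
    (h2 : ∀ N, Alive (fun v => c (refl v) = true) N (0, 0)) : c ∉ invasionSet G := by
  let C : Set Cell := {s | (∀ N, Alive (fun v => c v = true) N s) ∧
    ∀ N, Alive (fun v => c (refl v) = true) N (-s.1, -s.2)}
  have hup : ∀ s ∈ C, (s.1, s.2 + 1) ∈ C ∨ (s.1 + 1, s.2) ∈ C := by
    rintro ⟨i, j⟩ ⟨k1, k2⟩
    rcases alive_succ _ _ k1 with e | e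
    · refine Or.inl ⟨e, fun N => alive_mono _ _ _ ⟨?_, Or.inl ?_⟩⟩
      · simpa [refl] using (e 1).1
      · simpa using k2 N
    · refine Or.inr ⟨e, fun N => alive_mono _ _ _ ⟨?_, Or.inr ?_⟩⟩
      · simpa [refl] using (e 1).1
      · simpa using k2 N
  have hdown : ∀ s ∈ C, (s.1, s.2 - 1) ∈ C ∨ (s.1 - 1, s.2) ∈ C := by
    rintro ⟨i, j⟩ ⟨k1, k2⟩
    rcases alive_succ _ _ k2 with e | e
    · refine Or.inl ⟨fun N => alive_mono _ _ _ ⟨?_, Or.inl ?_⟩, ?_⟩
      · simpa [refl, sub_eq_add_neg, add_comm] using (e 1).1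
      · simpa using k1 N
      · simpa [sub_eq_add_neg, add_comm] using e
    · refine Or.inr ⟨fun N => alive_mono _ _ _ ⟨?_, Or.inr ?_⟩, ?_⟩
      · simpa [refl, sub_eq_add_neg, add_comm] using (e 1).1
      · simpa using k1 N
      · simpa [sub_eq_add_neg, add_comm] using e
  have h0 : ((0, 0) : Cell) ∈ C := ⟨h1, by simpa using h2⟩
  intro hI
  obtain ⟨n, hn⟩ := hI ((0, 0), 0)
  have := stays_healthy G {x : Vx | x.1 ∈ C} (cells_stable C hup hdown) c
    (fun v hv => by simpa using (hv.1 1).1 v.2) n ((0, 0), 0) h0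
  rw [this] at hn
  exact absurd hn (by decide)

lemma cyl_measure (p : unitInterval) (l : List Vx) (hl : l.Nodup) :
    Measure.infinitePi (fun _ : Vx => bernoulliMeasure true false p) {c | ∀ v ∈ l, c v = true}
      = (unitInterval.toNNReal p : ℝ≥0∞) ^ l.length := by
  have : {c : Vx → Bool | ∀ v ∈ l, c v = true} = Set.pi l.toFinset (fun _ => {true}) := by
    ext c; simp
  rw [this, Measure.infinitePi_pi _ (fun _ _ => measurableSet_singleton _)]
  rw [bernoulliMeasure_apply_of_mem_of_notMem p (measurableSet_singleton _) (by simp) (by simp)]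
  rw [Finset.prod_const, List.toFinset_card_of_nodup hl]

lemma blocked_measure (p : unitInterval) (r : ℝ≥0∞) (hp : (unitInterval.toNNReal p : ℝ≥0∞) = r ^ 3)
    (φ : Vx → Vx) (hφ : Function.Injective φ) :
    Measure.infinitePi (fun _ : Vx => bernoulliMeasure true false p)
      {c | ¬ ∀ N, Alive (fun v => c (φ v) = true) N (0, 0)} ≤ r ^ 2 * (1 - 6 * r)⁻¹ := by
  set μ := Measure.infinitePi (fun _ : Vx => bernoulliMeasure true false p) with hμ
  let a : Cell := (1, -1)
  let E : List Letter → Set (Vx → Bool) := fun w =>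
    {c | (fin a w = (0, 0) ∧ (trace a w).Nodup) ∧ ∀ v ∈ (need a w).map φ, c v = true}
  have hE : ∀ w, μ (E w) ≤ r ^ (w.length + 2) := by
    intro w
    by_cases h : fin a w = (0, 0) ∧ (trace a w).Nodup
    · have e : E w = {c | ∀ v ∈ (need a w).map φ, c v = true} := by
        ext c; simp only [E, Set.mem_ofPred_eq, h, true_and, and_self]
      have hl := length_need a w
      rw [h.1] at hl
      have hl' : 3 * (need a w).length = w.length + 2 := by
        simp only [a] at hl ⊢; omega
      rw [e, cyl_measure p _ ((need_nodup a w h.2).map hφ), hp, ← pow_mul, List.length_map, hl']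
    · have e : E w = ∅ := by
        ext c; simp only [E, Set.mem_ofPred_eq, h, false_and, Set.mem_empty_iff_false]
      simp [e]
  have hsub : {c : Vx → Bool | ¬ ∀ N, Alive (fun v => c (φ v) = true) N (0, 0)} ⊆
      ⋃ n : ℕ, ⋃ w : List.Vector Letter n, E w.toList := by
    intro c hc
    simp only [Set.mem_ofPred_eq, not_forall] at hc
    obtain ⟨N, hN⟩ := hc
    obtain ⟨w, h1, h2⟩ := dual_walk _ N _ hN
    obtain ⟨w', k1, k2, k3⟩ := self_avoid a w
    simp only [Set.mem_iUnion]
    refine ⟨w'.length, ⟨w', rfl⟩, ⟨k1.trans (by simpa using h1), k2⟩, ?_⟩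
    intro v hv
    obtain ⟨v', hv', rfl⟩ := List.mem_map.1 hv
    exact h2 v' (by simpa using k3 hv')
  refine (measure_mono hsub).trans ((measure_iUnion_le _).trans ?_)
  have hn : ∀ n : ℕ, μ (⋃ w : List.Vector Letter n, E w.toList) ≤ r ^ 2 * (6 * r) ^ n := by
    intro n
    refine (measure_iUnion_fintype_le _ _).trans ?_
    refine (Finset.sum_le_card_nsmul _ _ (r ^ (n + 2)) (fun w _ => by simpa using hE w.toList)).trans ?_
    rw [Finset.card_univ, card_vector]
    simp only [Fintype.card_sum, Fintype.card_fin, Fintype.card_bool, nsmul_eq_mul]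
    apply le_of_eq
    push_cast
    ring
  refine (ENNReal.tsum_le_tsum hn).trans ?_
  rw [ENNReal.tsum_mul_left, ENNReal.tsum_geometric]

/-- the infection probability `1/1728` -/
noncomputable def p0 : unitInterval := ⟨1 / 1728, by norm_num, by norm_num⟩

lemma invasion_lt_one :
    Measure.infinitePi (fun _ : Vx => bernoulliMeasure true false p0) (invasionSet G) < 1 := by
  have hp : (unitInterval.toNNReal p0 : ℝ≥0∞) = ((1 / 12 : NNReal) : ℝ≥0∞) ^ 3 := by
    rw [← ENNReal.coe_pow, ENNReal.coe_inj]
    ext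
    rw [unitInterval.coe_toNNReal]
    simp [p0]
    norm_num
  have h1 := blocked_measure p0 _ hp id Function.injective_id
  have h2 := blocked_measure p0 _ hp refl refl_injective
  have hsub : invasionSet G ⊆ {c | ¬ ∀ N, Alive (fun v => c (id v) = true) N (0, 0)} ∪
      {c | ¬ ∀ N, Alive (fun v => c (refl v) = true) N (0, 0)} := by
    intro c hc
    by_contra h
    simp only [Set.mem_union, Set.mem_ofPred_eq, not_or, not_not] at h
    exact not_invaded c h.1 h.2 hc
  refine (measure_mono hsub).trans_lt ((measure_union_le _ _).trans_lt ?_)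
  refine (add_le_add h1 h2).trans_lt ?_
  have e : (1 : ℝ≥0∞) - 6 * ((1 / 12 : NNReal) : ℝ≥0∞) = ((1 / 2 : NNReal) : ℝ≥0∞) := by
    have : (6 : ℝ≥0∞) * ((1 / 12 : NNReal) : ℝ≥0∞) = ((1 / 2 : NNReal) : ℝ≥0∞) := by
      rw [show (6 : ℝ≥0∞) = ((6 : NNReal) : ℝ≥0∞) from rfl, ← ENNReal.coe_mul, ENNReal.coe_inj]
      norm_num
    rw [this, ← ENNReal.coe_one, ← ENNReal.coe_sub, ENNReal.coe_inj]
    ext
    rw [NNReal.coe_sub (by norm_num)]
    norm_num
  rw [e, ← ENNReal.coe_inv (by norm_num), ← ENNReal.coe_pow, ← ENNReal.coe_mul, ← ENNReal.coe_add,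
    ← ENNReal.coe_one, ENNReal.coe_lt_coe]
  norm_num

theorem counterexample : ∃ (V : Type) (H : SimpleGraph V), Infinite V ∧ H.Connected ∧
    (∀ v : V, (H.neighborSet v).encard = 4) ∧ IsQuasiIsometric H squareGrid ∧
    (∀ S : Set V, ¬ IsFortress H S) ∧
    ∃ p : unitInterval, 0 < p ∧ p < 1 ∧
      Measure.infinitePi (fun _ : V => bernoulliMeasure true false p) (invasionSet H) < 1 :=
  ⟨Vx, G, inferInstance, G_connected, G_regular, G_qi, G_no_fortress, p0,
    by rw [← Subtype.coe_lt_coe]; simp [p0], by rw [← Subtype.coe_lt_coe]; simp [p0]; norm_num,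
    invasion_lt_one⟩

end Pool.Agent.MP_38c1f8_pr
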